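import Pool.Agent.R892.P5.Final

/-!
# Subgraph isomorphism is NP-complete on `P₅`-subgraph-free graphs

SUBGRAPH ISOMORPHISM is NP-complete on `P₅`-subgraph-free graphs, and on `2P₅`-subgraph-free graphs
(and on `F`-subgraph-free graphs for every finite graph `F` that contains `P₅`). This settles both
open cases, Q1 and Q2. Host and pattern are forests: disjoint unions of double stars and stars.

Proof. The reduction is from numerical three-dimensional matching, which is NP-hard for numbers
in unary: given `α, β, γ : Fin n → ℕ`, are there permutations `σ, τ` with
`α (σ g) + β (τ g) = γ g` for all `g`? Let `W` exceed all the numbers, and assume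
`∑ α + ∑ β = ∑ γ`. A double star `D(a, b)` has two adjacent centres with `a` and `b` leaves.
With `S g = 2 (γ g + 4 W)` the host consists of the double stars `D(a, S g - a)` for all `g` and
all `1 ≤ a ≤ 4 W`; the pattern consists of the double stars `D(a, S g - 1 - a)`,
`1 ≤ a < 4 W`, and of stars with `2 (α i + W)` and with `2 (β i + 3 W)` leaves. The pattern has as
many centres as the host, and they have degree at least two, so they occupy exactly the centres
of the host. All `S g` are even, so every double star of the pattern leaves at least one leaf of its
double star of the host unused. Since the numbers of leaves of the host and of the pattern differ by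
exactly the number of the double stars of the pattern, everything else is tight: each double star
of the host that is not used by a double star contains two stars with `S g` leaves in total, and
each value `S g` is left over as often as it should. Conversely, for each `g` any one of the double
stars `D(a, S g - a)` can be left free.
-/

set_option autoImplicit false

namespace Pool.Agent.Results.MP_143e72_lc.NPComplete

open Pool.Agent.NPC Pool.Agent.NPC.R671 Pool.Agent.R892.P5 SimpleGraph

/-- Subgraph isomorphism is NP-complete on `P₅`-subgraph-free graphs (first conjunct), on
`2P₅`-subgraph-free graphs (second conjunct), and more generally on `F`-subgraph-free graphs for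
every finite graph `F` that contains `P₅` (third conjunct). The last conjunct says that for each
language in NP there is a polynomial-time many-one reduction which always produces a host `G` and
a pattern `H` that are `P₅`-subgraph-free. -/
theorem result :
    (InNPP (SubIsoOn (pathGraph 5)) ∧ NPHardP (SubIsoOn (pathGraph 5))) ∧
    (InNPP (SubIsoOn (pathGraph 5 ⊕g pathGraph 5)) ∧
      NPHardP (SubIsoOn (pathGraph 5 ⊕g pathGraph 5))) ∧
    (∀ (W : Type) [Finite W] (F : SimpleGraph W), pathGraph 5 ⊑ F →
      InNPP (SubIsoOn F) ∧ NPHardP (SubIsoOn F)) ∧
    ∀ L : Set (List Bool), InNP L → ∃ f : List Bool → List Bool, PolyTime f ∧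
      ∀ x, ∃ (n m : ℕ) (G : SimpleGraph (Fin n)) (H : SimpleGraph (Fin m)),
        f x = bits (R671.adjMatrix G, R671.adjMatrix H) ∧ (pathGraph 5).Free G ∧
        (pathGraph 5).Free H ∧ (x ∈ L ↔ H ⊑ G) :=
  ⟨⟨NPC.R892.inNPP_subF _, NPC.R892.npHard_sub IsContained.rfl⟩,
    ⟨NPC.R892.inNPP_subF _, NPC.R892.npHard_sub NPC.R892.path_sub_two⟩,
    fun _ _ F hF => ⟨NPC.R892.inNPP_subF F, NPC.R892.npHard_sub hF⟩, NPC.R892.hard_sub⟩

end Pool.Agent.Results.MP_143e72_lc.NPComplete
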